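import Mathlib
import Pool.Agent.Y156.L.Props
import Pool.Agent.Y1.CT.TypeDefs
import Pool.Agent.Y1.CT.UnrelDefs

/-!
# Theories relative to a scheme and abelian varieties with slope types in CM fields: properties
-/

set_option autoImplicit false

namespace Pool.Agent.V1168.UN

open Polynomial Pool.Agent.Y156.L Pool.Agent.Y1.CT

section

variable {Λ : Type} [Field Λ] {A : AbelianData Λ}

/-- The Frobenius endomorphism of `U` satisfies, on each group `H^i(A × U, j)`, a nonzero rational
polynomial all of whose complex roots are unrelated to the fields `K i`. -/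
def FrobeniusUnrelated {I : Type} (K : I → Type) [∀ i, Field (K i)] (T : RelData A) : Prop :=
  ∀ i j : ℤ, ∃ χ : ℚ[X], χ ≠ 0 ∧ (∀ ρ : ℂ, aeval ρ χ = 0 → Unrelated K ρ) ∧
    ∀ m, T.DegM i j m → aeval T.frobM χ m = 0

/-- The regulator `H^i(U, j) → R^i(U, j)` is a bijection onto the Frobenius invariants. -/
def BijectiveN {T R : RelData A} (c : Regulator T R) (Q : ℕ) (i j : ℤ) : Prop :=
  OntoN c Q i j ∧ InjectiveN c i j

/-- The regulator `H^i(A × U, j) → R^i(A × U, j)` is a bijection onto the Frobenius invariants. -/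
def BijectiveM {T R : RelData A} (c : Regulator T R) (Q : ℕ) (i j : ℤ) : Prop :=
  OntoM c Q i j ∧ InjectiveM c i j

/-- The Frobenius endomorphism of `A × U` preserves the groups `H^i(A × U, j)`, and the one of `U`
preserves the groups `H^i(U, j)`. -/
structure PreservesDegrees (T : RelData A) : Prop where
  degM : ∀ {i j : ℤ} {m : T.M}, T.DegM i j m → T.DegM i j (T.app A.frob (T.FM m))
  degN : ∀ {i j : ℤ} {n : T.N}, T.DegN i j n → T.DegN i j (T.FN n)

/-- The eigenvalue `Q ^ j` of the Frobenius endomorphism of `U` on `H^i(U, j)` is semisimple: all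
generalized eigenvectors are eigenvectors. -/
def SemisimpleN (T : RelData A) (Q : ℕ) (i j : ℤ) : Prop :=
  ∀ (N : ℕ) (n : T.N), T.DegN i j n → (fun x => T.FN x - T.scaleN ((Q : ℚ) ^ j) x)^[N] n = 0 →
    T.FN n = T.scaleN ((Q : ℚ) ^ j) n

/-- The eigenvalue `Q ^ j` of the Frobenius endomorphism of `A × U` on `H^i(A × U, j)` is
semisimple: all generalized eigenvectors are eigenvectors. -/
def SemisimpleM (T : RelData A) (Q : ℕ) (i j : ℤ) : Prop :=
  ∀ (N : ℕ) (m : T.M), T.DegM i j m →
    (fun x => T.app A.frob (T.FM x) - T.scaleM ((Q : ℚ) ^ j) x)^[N] m = 0 →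
    T.app A.frob (T.FM m) = T.scaleM ((Q : ℚ) ^ j) m

end

section

variable {I : Type} (K : I → Type) [∀ i, Field (K i)] (q : ℕ) (f : I → ℤ[X])

/-- `TateHigher K q f`: for every abelian variety `A` as in `IsAbelian` there are finitely
many products `D t` of divisor classes on `A`, such that for all `R` (cohomology) relative to any
scheme `U`, with the formal properties and unrelated to the fields `K i`: the Kunneth formula holds,
and for all `T` (motivic cohomology) relative to `U` with a regulator to `R`, and all `i`, `j`, the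
regulator of `A × U` in bidegree `(i, j)` is onto the Frobenius invariants if and only if those of
`U` in the bidegrees `(i - 2 k, j - k)`, `0 ≤ k ≤ dim A`, are. -/
def TateHigher : Prop :=
  ∀ (Λ : Type) [Field Λ] [CharZero Λ] (A : AbelianData Λ) (s : ℕ), IsAbelian A q s f →
    ∃ (J : Type) (_ : Fintype J) (c : J → ℕ) (D : J → A.CH), IsFamily A c D ∧
      ∀ R : RelData A, IsRel (q ^ s) R → FrobeniusUnrelated K R → R.Kunneth (q ^ s) c D ∧
        ∀ (T : RelData A) (ρ : Regulator T R), IsRel (q ^ s) T → IsRegulator ρ →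
          ∀ i j : ℤ, OntoM ρ (q ^ s) i j ↔
            ∀ k : ℕ, k ≤ A.dim → OntoN ρ (q ^ s) (i - 2 * k) (j - k)

/-- `BeilinsonHigher K q f`: for every abelian variety `A` as in `IsAbelian` there are
finitely many products `D t` of divisor classes on `A`, such that for all `T` (motivic cohomology)
relative to any scheme `U`, with the formal properties, pure and unrelated to the fields `K i`: the
Kunneth formula holds, and for all `R` (cohomology) relative to `U` with a regulator from `T` to `R`,
and all `i`, `j`, the regulator of `A × U` in bidegree `(i, j)` is injective if and only if those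
of `U` in the bidegrees `(i - 2 k, j - k)`, `0 ≤ k ≤ dim A`, are. -/
def BeilinsonHigher : Prop :=
  ∀ (Λ : Type) [Field Λ] [CharZero Λ] (A : AbelianData Λ) (s : ℕ), IsAbelian A q s f →
    ∃ (J : Type) (_ : Fintype J) (c : J → ℕ) (D : J → A.CH), IsFamily A c D ∧
      ∀ T : RelData A, IsRel (q ^ s) T → T.IsPure (q ^ s) → FrobeniusUnrelated K T →
        T.Kunneth (q ^ s) c D ∧
        ∀ (R : RelData A) (ρ : Regulator T R), IsRel (q ^ s) R → IsRegulator ρ →
          ∀ i j : ℤ, InjectiveM ρ i j ↔ ∀ k : ℕ, k ≤ A.dim → InjectiveN ρ (i - 2 * k) (j - k)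

/-- `ParshinHigher K q f`: for every abelian variety `A` as in `IsAbelian` there are
finitely many products `D t` of divisor classes on `A`, such that for all `T` (motivic cohomology)
relative to any scheme `Z`, with the formal properties, pure and unrelated to the fields `K i`: the
Kunneth formula holds, and for all `i`, `j` the group `H^i(A × Z, j)` is zero if and only if the
groups `H^(i - 2 k)(Z, j - k)`, `0 ≤ k ≤ dim A`, are zero. -/
def ParshinHigher : Prop :=
  ∀ (Λ : Type) [Field Λ] [CharZero Λ] (A : AbelianData Λ) (s : ℕ), IsAbelian A q s f →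
    ∃ (J : Type) (_ : Fintype J) (c : J → ℕ) (D : J → A.CH), IsFamily A c D ∧
      ∀ T : RelData A, IsRel (q ^ s) T → T.IsPure (q ^ s) → FrobeniusUnrelated K T →
        T.Kunneth (q ^ s) c D ∧
        ∀ i j : ℤ, (∀ m, T.DegM i j m → m = 0) ↔
          ∀ k : ℕ, k ≤ A.dim → ∀ n, T.DegN (i - 2 * k) (j - k) n → n = 0

/-- `PerfectHigher K q f`: for every abelian variety `A` as in `IsAbelian` there are
finitely many products `D t` of divisor classes on `A`, such that for all `T` (motivic cohomology)
relative to any smooth projective scheme `Z` of any dimension `d`, with the formal properties, pure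
and unrelated to the fields `K i`: the Kunneth formula holds, and for all `i`, `j` the cup product
pairing `H^i(A × Z, j) × H^(2 (dim A + d) - i)(A × Z, dim A + d - j) → ℚ` is perfect if and only if
the pairings `H^(i - 2 k)(Z, j - k) × H^(2 d - (i - 2 k))(Z, d - (j - k)) → ℚ`, `0 ≤ k ≤ dim A`, are
perfect. -/
def PerfectHigher : Prop :=
  ∀ (Λ : Type) [Field Λ] [CharZero Λ] (A : AbelianData Λ) (s : ℕ), IsAbelian A q s f →
    ∃ (J : Type) (_ : Fintype J) (c : J → ℕ) (D : J → A.CH), IsFamily A c D ∧
      ∀ T : RelData A, IsRel (q ^ s) T → T.IsPure (q ^ s) → FrobeniusUnrelated K T →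
        T.Kunneth (q ^ s) c D ∧ ∀ B : CupProduct T, IsCupProduct B →
          ∀ d i j : ℤ, PerfectM B (A.dim + d) i j ↔
            ∀ k : ℕ, k ≤ A.dim → PerfectN B d (i - 2 * k) (j - k)

/-- `SemisimpleHigher K q f`: for every abelian variety `A` as in `IsAbelian` and all `R`
(cohomology) relative to any scheme `U`, with the formal properties and unrelated to the fields
`K i`, and all `i`, `j`: the eigenvalue `Q ^ j` of Frobenius on `H^i(A × U, j)` is semisimple if and
only if the eigenvalues `Q ^ (j - k)` on `H^(i - 2 k)(U, j - k)`, `0 ≤ k ≤ dim A`, are. -/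
def SemisimpleHigher : Prop :=
  ∀ (Λ : Type) [Field Λ] [CharZero Λ] (A : AbelianData Λ) (s : ℕ), IsAbelian A q s f →
    ∀ R : RelData A, IsRel (q ^ s) R → PreservesDegrees R → FrobeniusUnrelated K R →
      ∀ i j : ℤ, SemisimpleM R (q ^ s) i j ↔
        ∀ k : ℕ, k ≤ A.dim → SemisimpleN R (q ^ s) (i - 2 * k) (j - k)

/-- `TateBeilinsonHigher K q f`: for every abelian variety `A` as in `IsAbelian`, all `T` (motivic
homology or cohomology) and `R` (`ℓ`-adic homology or cohomology) relative to any scheme `U`, with
the formal properties, `T` pure, both unrelated to the fields `K i`, and a regulator from `T` to `R`,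
and all `i`, `j`: the regulator of `A × U` in bidegree `(i, j)` is a bijection onto the Frobenius
invariants and the eigenvalue `Q ^ j` of Frobenius on `R^i(A × U, j)` is semisimple, if and only if
the same is true for `U` in the bidegrees `(i - 2 k, j - k)`, `0 ≤ k ≤ dim A`. -/
def TateBeilinsonHigher : Prop :=
  ∀ (Λ : Type) [Field Λ] [CharZero Λ] (A : AbelianData Λ) (s : ℕ), IsAbelian A q s f →
    ∀ (T R : RelData A) (ρ : Regulator T R), IsRel (q ^ s) T → T.IsPure (q ^ s) →
      FrobeniusUnrelated K T → IsRel (q ^ s) R → PreservesDegrees R → FrobeniusUnrelated K R →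
      IsRegulator ρ → ∀ i j : ℤ,
        (BijectiveM ρ (q ^ s) i j ∧ SemisimpleM R (q ^ s) i j) ↔ ∀ k : ℕ, k ≤ A.dim →
          BijectiveN ρ (q ^ s) (i - 2 * k) (j - k) ∧ SemisimpleN R (q ^ s) (i - 2 * k) (j - k)

end

end Pool.Agent.V1168.UN
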