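import Mathlib
import Pool.Agent.V1168.UN.Good
import Pool.Agent.V1168.UN.Props
import Pool.Agent.Y156.L.Thms

/-!
# Theories relative to a scheme and abelian varieties with slope types in CM fields: proofs
-/

set_option autoImplicit false
set_option linter.unusedSectionVars false
set_option linter.unusedVariables false

namespace Pool.Agent.V1168.UN

open Module Polynomial Pool.Agent.Y156.L Pool.Agent.W484.HS Pool.Agent.Y1.CT

section gen

variable {M : Type*} [AddCommGroup M] [Module ℚ M]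

/-- The polynomial `rev χ μ` in `F`, up to a multiple of `F φ - μ`. -/
theorem rev_eq (F φ : Module.End ℚ M) (hc : Commute F φ) (μ : ℚ) (χ : ℚ[X]) :
    ∃ G : Module.End ℚ M, Commute G (F * φ - algebraMap ℚ _ μ) ∧
      aeval F (rev χ μ) = F ^ χ.natDegree * aeval φ χ + G * (F * φ - algebraMap ℚ _ μ) := by
  classical
  set ν : Module.End ℚ M := F * φ with hν
  set m : Module.End ℚ M := algebraMap ℚ _ μ with hm
  have hmν : Commute m ν := Algebra.commute_algebraMap_left μ ν
  have hFν : Commute F ν := (Commute.refl F).mul_right hc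
  have hFm : Commute F m := Algebra.commute_algebraMap_right μ F
  -- the terms
  let g : ℕ → Module.End ℚ M := fun l => ∑ i ∈ Finset.range l, m ^ i * ν ^ (l - 1 - i)
  have hg : ∀ l, g l * (m - ν) = m ^ l - ν ^ l := fun l => hmν.geom_sum₂_mul l
  have hgc : ∀ l, Commute (g l) (ν - m) := by
    intro l
    refine Commute.sum_left _ _ _ fun i _ => ?_
    refine Commute.mul_left (Commute.pow_left ?_ _) (Commute.pow_left ?_ _)
    · exact (hmν.sub_right (Commute.refl m))
    · exact ((Commute.refl ν).sub_right hmν.symm)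
  refine ⟨-∑ l ∈ Finset.range (χ.natDegree + 1),
    (χ.coeff l) • (g l * F ^ (χ.natDegree - l)), ?_, ?_⟩
  · refine Commute.neg_left (Commute.sum_left _ _ _ fun l _ => ?_)
    refine Commute.smul_left ?_ _
    refine (hgc l).mul_left (Commute.pow_left ?_ _)
    exact hFν.sub_right hFm
  · rw [rev, map_sum, aeval_eq_sum_range, Finset.mul_sum, neg_mul, Finset.sum_mul,
      ← Finset.sum_neg_distrib, ← Finset.sum_add_distrib]
    refine Finset.sum_congr rfl fun l hl => ?_
    have hl' : l ≤ χ.natDegree := by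
      have := Finset.mem_range.1 hl
      omega
    have h1 : F ^ χ.natDegree * (χ.coeff l • φ ^ l) =
        χ.coeff l • (ν ^ l * F ^ (χ.natDegree - l)) := by
      have h5 : F ^ χ.natDegree = F ^ l * F ^ (χ.natDegree - l) := by
        rw [← pow_add, Nat.add_sub_cancel' hl']
      rw [mul_smul_comm, hν, hc.mul_pow, mul_assoc (F ^ l),
        (hc.symm.pow_pow l (χ.natDegree - l)).eq, ← mul_assoc, h5]
    have h2 : g l * F ^ (χ.natDegree - l) * (ν - m) =
        -((m ^ l - ν ^ l) * F ^ (χ.natDegree - l)) := by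
      have h3 : Commute (F ^ (χ.natDegree - l)) (ν - m) :=
        Commute.pow_left (hFν.sub_right hFm) _
      rw [mul_assoc, h3.eq, ← mul_assoc, ← hg, show ν - m = -(m - ν) by abel, mul_neg, neg_mul]
    rw [h1, smul_mul_assoc, h2, smul_neg, neg_neg, sub_mul, smul_sub, map_mul, aeval_C, map_pow,
      aeval_X, map_mul, map_pow]
    have h4 : (algebraMap ℚ (Module.End ℚ M)) (χ.coeff l) * m ^ l * F ^ (χ.natDegree - l) =
        χ.coeff l • (m ^ l * F ^ (χ.natDegree - l)) := by
      rw [mul_assoc, ← Algebra.smul_def]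
    rw [← hm, h4]
    abel

/-- The polynomial `rev χ μ` in `F` is nilpotent on generalized eigenvectors of `F φ`. -/
theorem rev_pow_gen (F φ : Module.End ℚ M) (hc : Commute F φ) (μ : ℚ) (χ : ℚ[X])
    (V : Submodule ℚ M) (hV : ∀ m ∈ V, F m ∈ V) (hχ : ∀ m ∈ V, aeval φ χ m = 0) (N : ℕ)
    (hN : ∀ m ∈ V, ((F * φ - algebraMap ℚ _ μ) ^ N) m = 0) {m : M} (hm : m ∈ V) :
    aeval F ((rev χ μ) ^ N) m = 0 := by
  obtain ⟨G, hG, hrev⟩ := rev_eq F φ hc μ χ
  have hFV : ∀ (S : ℚ[X]) (y : M), y ∈ V → aeval F S y ∈ V := by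
    intro S y hy
    have hpow : ∀ l : ℕ, (F ^ l) y ∈ V := by
      intro l
      induction l with
      | zero => simpa using hy
      | succ l ih =>
        rw [pow_succ', Module.End.mul_apply]
        exact hV _ ih
    rw [aeval_eq_sum_range, LinearMap.sum_apply]
    exact Submodule.sum_mem _ fun l _ => Submodule.smul_mem _ _ (hpow l)
  have h1 : ∀ y ∈ V, aeval F (rev χ μ) y = G ((F * φ - algebraMap ℚ _ μ) y) := by
    intro y hy
    rw [hrev, LinearMap.add_apply, Module.End.mul_apply, hχ y hy, map_zero, zero_add,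
      Module.End.mul_apply]
  have h2 : ∀ k : ℕ, ((aeval F (rev χ μ)) ^ k) m =
      (G ^ k) (((F * φ - algebraMap ℚ _ μ) ^ k) m) := by
    intro k
    induction k with
    | zero => simp
    | succ k ih =>
      have h3 : ((aeval F (rev χ μ)) ^ k) m ∈ V := by
        rw [← map_pow]
        exact hFV _ m hm
      rw [pow_succ', Module.End.mul_apply, h1 _ h3, ih, pow_succ', Module.End.mul_apply,
        pow_succ', Module.End.mul_apply]
      exact congrArg G (DFunLike.congr_fun (hG.pow_left k).symm.eq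
        (((F * φ - algebraMap ℚ _ μ) ^ k) m))
  rw [map_pow, h2, hN m hm, map_zero]

end gen

section

variable {Λ : Type} [Field Λ] [CharZero Λ] {A : AbelianData Λ} {q s : ℕ} {I : Type}
  {f : I → ℤ[X]} {K : I → Type} [∀ i, Field (K i)]

/-- The formula for a theory, for the Frobenius invariants. -/
def Expands {J : Type} [Fintype J] (Q : ℕ) (T : RelData A) (D E : J → A.CH) : Prop :=
  ∀ (i j : ℤ) (m : T.M), T.InvM Q i j m → m = ∑ t, T.times (D t) (T.pair (E t) m)

/-- The formula for a theory, for the generalized Frobenius eigenvectors. -/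
def ExpandsGen {J : Type} [Fintype J] (Q : ℕ) (T : RelData A) (D E : J → A.CH) : Prop :=
  ∀ (i j : ℤ) (N : ℕ) (m : T.M), T.DegM i j m →
    (fun x => T.app A.frob (T.FM x) - T.scaleM ((Q : ℚ) ^ j) x)^[N] m = 0 →
      m = ∑ t, T.times (D t) (T.pair (E t) m)

/-- The operator `F φ - Q ^ j`. -/
theorem iterate_eq (Q : ℕ) (T : RelData A) (j : ℤ) (N : ℕ) (m : T.M) :
    (fun x => T.app A.frob (T.FM x) - T.scaleM ((Q : ℚ) ^ j) x)^[N] m =
      ((T.act A.frob * T.frobM - algebraMap ℚ _ ((Q : ℚ) ^ j)) ^ N) m := by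
  rw [Module.End.pow_apply]
  rfl

theorem iterateN_eq (Q : ℕ) (T : RelData A) (j : ℤ) (N : ℕ) (n : T.N) :
    (fun x => T.FN x - T.scaleN ((Q : ℚ) ^ j) x)^[N] n =
      ((T.frobN - algebraMap ℚ _ ((Q : ℚ) ^ j)) ^ N) n := by
  rw [Module.End.pow_apply]
  rfl

theorem commute_frob {Q : ℕ} {T : RelData A} (hT : IsRel Q T) : Commute (T.act A.frob) T.frobM := by
  ext m
  exact (hT.frob_act A.frob m).symm

/-- **The Kunneth formula, for all theories unrelated to the fields.** -/
theorem exists_classes (hq : 1 < q) (hR : NoRel f q (Unrelated K)) (hA : IsAbelian A q s f) :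
    ∃ (J : Type) (_ : Fintype J) (c : J → ℕ) (D E' : J → A.CH), IsFamily A c D ∧
      Pool.Agent.Y156.L.IsDual A c D E' ∧ q ^ s ≠ 0 ∧
      ∀ T : RelData A, IsRel (q ^ s) T → FrobeniusUnrelated K T →
        Expands (q ^ s) T D E' ∧ Expands (q ^ s) T E' D ∧
        (PreservesDegrees T → ExpandsGen (q ^ s) T D E' ∧ ExpandsGen (q ^ s) T E' D) := by
  obtain ⟨J, hJ, c, D, E', hF, hdual, hQ, hmain⟩ := exists_core hq hR hA
  refine ⟨J, hJ, c, D, E', hF, hdual, hQ, fun T hT hK => ?_⟩
  have hinv : ∀ (i j : ℤ) (m : T.M), T.InvM (q ^ s) i j m →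
      m = ∑ t, T.times (D t) (T.pair (E' t) m) ∧ m = ∑ t, T.times (E' t) (T.pair (D t) m) := by
    intro i j m hm
    obtain ⟨χ, hχ, hrank, hkill⟩ := hK i j
    have hkill' : ∀ m ∈ invSub T (q ^ s) i j, aeval T.frobM χ m = 0 := fun m hm => hkill m hm.1
    have hV1 : ∀ m ∈ invSub T (q ^ s) i j, T.frobM m ∈ invSub T (q ^ s) i j :=
      fun m hm => inv_frob hT hm
    have hV2 : ∀ m ∈ invSub T (q ^ s) i j, T.act A.frob (T.frobM m) =
        ((q ^ s : ℕ) : ℚ) ^ j • m := fun m hm => hm.2
    have hV : ∀ m ∈ invSub T (q ^ s) i j, T.act A.frob m ∈ invSub T (q ^ s) i j := fun m hm =>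
      stable_of _ T.frobM _ _ hV1 hV2 χ
        (coeff_zero_ne' (not_unrelated_zero K) hrank) hkill' hm
    exact hmain T hT j χ hχ hrank (invSub T (q ^ s) i j) 1 hV (fun m hm => by
      rw [pow_one]
      exact aeval_rev_op _ T.frobM _ _ hV1 hV2 χ hkill' hm) m hm
  refine ⟨fun i j m hm => (hinv i j m hm).1, fun i j m hm => (hinv i j m hm).2, fun hP => ?_⟩
  have hgen : ∀ (i j : ℤ) (N : ℕ) (m : T.M), T.DegM i j m →
      (fun x => T.app A.frob (T.FM x) - T.scaleM (((q ^ s : ℕ) : ℚ) ^ j) x)^[N] m = 0 →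
      m = ∑ t, T.times (D t) (T.pair (E' t) m) ∧ m = ∑ t, T.times (E' t) (T.pair (D t) m) := by
    intro i j N m hm hN
    obtain ⟨χ, hχ, hrank, hkill⟩ := hK i j
    have hc := commute_frob hT
    set ν := T.act A.frob * T.frobM - algebraMap ℚ _ (((q ^ s : ℕ) : ℚ) ^ j) with hν
    let V : Submodule ℚ T.M := T.grM i j ⊓ LinearMap.ker (ν ^ N)
    have hcν : Commute T.frobM ν :=
      ((hc.symm).mul_right (Commute.refl _)).sub_right (Algebra.commute_algebraMap_right _ _)
    have hVφ : ∀ y ∈ V, T.frobM y ∈ V := by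
      intro y hy
      refine ⟨hT.frob_mem hy.1, ?_⟩
      have h1 : (ν ^ N) y = 0 := hy.2
      change (ν ^ N) (T.frobM y) = 0
      rw [← Module.End.mul_apply, (hcν.symm.pow_left N).eq, Module.End.mul_apply, h1, map_zero]
    have hVν : ∀ y ∈ V, T.act A.frob (T.frobM y) ∈ V := by
      intro y hy
      refine ⟨hP.degM hy.1, ?_⟩
      have h1 : (ν ^ N) y = 0 := hy.2
      change (ν ^ N) (T.act A.frob (T.frobM y)) = 0
      have h2 : Commute (T.act A.frob * T.frobM) ν :=
        (Commute.refl _).sub_right (Algebra.commute_algebraMap_right _ _)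
      rw [← Module.End.mul_apply (T.act A.frob), ← Module.End.mul_apply,
        (h2.symm.pow_left N).eq, Module.End.mul_apply, h1, map_zero]
    have hχ0 : χ.coeff 0 ≠ 0 := coeff_zero_ne' (not_unrelated_zero K) hrank
    have hVF : ∀ y ∈ V, T.act A.frob y ∈ V := by
      intro y hy
      have haV : ∀ S : ℚ[X], aeval T.frobM S y ∈ V := by
        intro S
        have hpow : ∀ l : ℕ, (T.frobM ^ l) y ∈ V := by
          intro l
          induction l with
          | zero => simpa using hy
          | succ l ih =>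
            rw [pow_succ', Module.End.mul_apply]
            exact hVφ _ ih
        rw [aeval_eq_sum_range, LinearMap.sum_apply]
        exact Submodule.sum_mem _ fun l _ => Submodule.smul_mem _ _ (hpow l)
      have h1 : y = T.frobM ((-(χ.coeff 0)⁻¹) • aeval T.frobM χ.divX y) := by
        have h2 := hkill y hy.1
        rw [← divX_mul_X_add χ, mul_comm χ.divX, map_add, aeval_C, map_mul, aeval_X,
          LinearMap.add_apply, Module.End.mul_apply, Module.algebraMap_end_apply] at h2
        have h3 : T.frobM (aeval T.frobM χ.divX y) = -(χ.coeff 0 • y) :=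
          eq_neg_of_add_eq_zero_left h2
        rw [map_smul, h3, smul_neg, neg_smul, neg_neg, smul_smul, inv_mul_cancel₀ hχ0, one_smul]
      rw [h1]
      exact hVν _ (Submodule.smul_mem _ _ (haV _))
    refine hmain T hT j χ hχ hrank V N hVF (fun y hy => ?_) m ⟨hm, ?_⟩
    · exact rev_pow_gen (T.act A.frob) T.frobM hc _ χ V hVF (fun y hy => hkill y hy.1) N
        (fun y hy => hy.2) hy
    · rw [iterate_eq] at hN
      exact hN
  exact ⟨fun i j N m hm hN => (hgen i j N m hm hN).1,
    fun i j N m hm hN => (hgen i j N m hm hN).2⟩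

end

section semisimple

variable {Λ : Type} [Field Λ] [CharZero Λ] {A : AbelianData Λ} {J : Type} [Fintype J]
  {c : J → ℕ} {D E : J → A.CH} {Q : ℕ}

/-- The operator `F φ - Q ^ j` on a product with a class on `A`. -/
theorem op_times (hQ : Q ≠ 0) {T : RelData A} (hT : IsRel Q T) {k : ℕ} {b : A.CH}
    (hb : b ∈ A.codim k) (j : ℤ) (N : ℕ) (n : T.N) :
    ((T.act A.frob * T.frobM - algebraMap ℚ _ ((Q : ℚ) ^ (j + k))) ^ N) (T.times b n) =
      ((Q : ℚ) ^ k) ^ N • T.times b (((T.frobN - algebraMap ℚ _ ((Q : ℚ) ^ j)) ^ N) n) := by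
  have hQ0 : (Q : ℚ) ≠ 0 := by exact_mod_cast hQ
  induction N generalizing n with
  | zero => simp
  | succ N ih =>
    have h1 : (T.act A.frob * T.frobM - algebraMap ℚ _ ((Q : ℚ) ^ (j + k))) (T.times b n) =
        (Q : ℚ) ^ k • T.times b ((T.frobN - algebraMap ℚ _ ((Q : ℚ) ^ j)) n) := by
      rw [LinearMap.sub_apply, Module.End.mul_apply, hT.frob_times, hT.act_frob_times _ hb,
        LinearMap.sub_apply, map_sub, smul_sub, Module.algebraMap_end_apply,
        Module.algebraMap_end_apply, map_smul, smul_smul, zpow_add₀ hQ0, zpow_natCast, mul_comm]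
    rw [pow_succ, Module.End.mul_apply, h1, map_smul, ih, pow_succ (T.frobN - _),
      Module.End.mul_apply, smul_smul, pow_succ]
    congr 1
    ring

theorem semisimple_iff (hF : IsFamily A c D) (h : Pool.Agent.Y156.L.IsDual A c D E) (hQ : Q ≠ 0)
    {T : RelData A} (hT : IsRel Q T) (hexp : ExpandsGen Q T D E) (i j : ℤ) :
    SemisimpleM T Q i j ↔ ∀ k : ℕ, k ≤ A.dim → SemisimpleN T Q (i - 2 * k) (j - k) := by
  classical
  have hQ0 : (Q : ℚ) ≠ 0 := by exact_mod_cast hQ
  have hsh : ∀ k : ℕ, (j - k : ℤ) + k = j := fun k => sub_add_cancel _ _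
  constructor
  · intro h0 k hk N n hn hN
    obtain ⟨t, rfl⟩ := hF.exists_eq k hk
    have h1 := hT.times_mem (h.left t) hn
    rw [sub_add_cancel, sub_add_cancel] at h1
    rw [iterateN_eq] at hN
    have h2 := op_times hQ hT (h.left t) (j - c t) N n
    rw [hN, map_zero, smul_zero, hsh] at h2
    have h3 := h0 N _ h1 (by rw [iterate_eq]; exact h2)
    have h4 : T.act A.frob (T.frobM (T.times (D t) n)) = (Q : ℚ) ^ j • T.times (D t) n := h3
    rw [hT.frob_times, hT.act_frob_times _ (h.left t)] at h4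
    have h5 := congrArg (T.pair (E t)) h4
    rw [map_smul, map_smul, dualpair hT h t t, dualpair hT h t t, if_pos rfl, if_pos rfl] at h5
    change T.frobN n = (Q : ℚ) ^ (j - c t) • n
    rw [zpow_sub₀ hQ0, zpow_natCast, div_eq_inv_mul, mul_smul, ← h5, smul_smul,
      inv_mul_cancel₀ (pow_ne_zero _ hQ0), one_smul]
  · intro h0 N m hm hN
    have h1 := hexp i j N m hm hN
    rw [iterate_eq] at hN
    -- the components
    have h2 : ∀ t, T.FN (T.pair (E t) m) = T.scaleN ((Q : ℚ) ^ (j - c t)) (T.pair (E t) m) := by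
      intro t
      refine h0 (c t) (h.le t) N _ (hT.pair_mem (by have := h.le t; omega) (h.right t) hm) ?_
      rw [iterateN_eq]
      have h3 : ((T.act A.frob * T.frobM - algebraMap ℚ _ ((Q : ℚ) ^ j)) ^ N) m =
          ∑ l, T.times (D l) (((Q : ℚ) ^ c l) ^ N •
            ((T.frobN - algebraMap ℚ _ ((Q : ℚ) ^ (j - c l))) ^ N) (T.pair (E l) m)) := by
        conv_lhs => rw [h1]
        rw [map_sum]
        refine Finset.sum_congr rfl fun l _ => ?_
        have h4 := op_times hQ hT (h.left l) (j - c l) N (T.pair (E l) m)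
        rw [hsh] at h4
        rw [h4, map_smul]
      rw [hN] at h3
      have h4 := congrArg (T.pair (E t)) h3
      rw [map_zero, pair_sum hT h] at h4
      exact (smul_eq_zero.1 h4.symm).resolve_left (pow_ne_zero _ (pow_ne_zero _ hQ0))
    change T.act A.frob (T.frobM m) = (Q : ℚ) ^ j • m
    conv_lhs => rw [h1]
    conv_rhs => rw [h1]
    rw [map_sum, map_sum, Finset.smul_sum]
    refine Finset.sum_congr rfl fun l _ => ?_
    have h5 : T.frobN (T.pair (E l) m) = (Q : ℚ) ^ (j - c l) • T.pair (E l) m := h2 l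
    rw [hT.frob_times, hT.act_frob_times _ (h.left l), h5, map_smul, smul_smul, ← zpow_natCast,
      ← zpow_add₀ hQ0]
    congr 2
    ring

end semisimple

section main

variable {I : Type} {K : I → Type} [∀ i, Field (K i)] {q : ℕ} (hq : 1 < q) {f : I → ℤ[X]}
  (hR : NoRel f q (Unrelated K))

include hq hR

theorem tateHigher : TateHigher K q f := by
  intro Λ _ _ A s hA
  obtain ⟨J, hJ, c, D, E', hF, hdual, hQ, hmain⟩ := exists_classes hq hR hA
  refine ⟨J, hJ, c, D, hF, fun R hR hK => ?_⟩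
  have hexp := (hmain R hR hK).1
  exact ⟨kunneth_of hQ hR hdual hexp, fun T ρ hT hc i j =>
    tate_iff hF hdual hQ hT hR hc hexp i j⟩

theorem beilinsonHigher : BeilinsonHigher K q f := by
  intro Λ _ _ A s hA
  obtain ⟨J, hJ, c, D, E', hF, hdual, hQ, hmain⟩ := exists_classes hq hR hA
  refine ⟨J, hJ, c, D, hF, fun T hT hpure hK => ?_⟩
  have hexp := (hmain T hT hK).1
  exact ⟨kunneth_of hQ hT hdual hexp, fun R ρ _ hc i j =>
    beilinson_iff hF hdual hT hc (fun i j m hm => hexp i j m (hpure i j m hm)) i j⟩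

theorem parshinHigher : ParshinHigher K q f := by
  intro Λ _ _ A s hA
  obtain ⟨J, hJ, c, D, E', hF, hdual, hQ, hmain⟩ := exists_classes hq hR hA
  refine ⟨J, hJ, c, D, hF, fun T hT hpure hK => ?_⟩
  have hexp := (hmain T hT hK).1
  refine ⟨kunneth_of hQ hT hdual hexp, fun i j => ?_⟩
  have h1 := parshin_iff hF hdual hT (fun i j m hm => hexp i j m (hpure i j m hm)) i j
  simp only [Submodule.eq_bot_iff] at h1
  exact h1

theorem perfectHigher : PerfectHigher K q f := by
  intro Λ _ _ A s hA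
  obtain ⟨J, hJ, c, D, E', hF, hdual, hQ, hmain⟩ := exists_classes hq hR hA
  refine ⟨J, hJ, c, D, hF, fun T hT hpure hK => ?_⟩
  have hexp := (hmain T hT hK).1
  have hexp' := (hmain T hT hK).2.1
  exact ⟨kunneth_of hQ hT hdual hexp, fun B hB d i j =>
    perfect_iff hF hdual hT hB (fun i j m hm => hexp i j m (hpure i j m hm))
      (fun i j m hm => hexp' i j m (hpure i j m hm)) d i j⟩

theorem semisimpleHigher : SemisimpleHigher K q f := by
  intro Λ _ _ A s hA R hR' hP hK i j
  obtain ⟨J, hJ, c, D, E', hF, hdual, hQ, hmain⟩ := exists_classes hq hR hA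
  exact semisimple_iff hF hdual hQ hR' ((hmain R hR' hK).2.2 hP).1 i j

theorem tateBeilinsonHigher : TateBeilinsonHigher K q f := by
  intro Λ _ _ A s hA T R ρ hT hpure hKT hR' hP hK hc i j
  obtain ⟨J, hJ, c, D, E', hF, hdual, hQ, hmain⟩ := exists_classes hq hR hA
  have h1 := tate_iff hF hdual hQ hT hR' hc (hmain R hR' hK).1 i j
  have h2 := beilinson_iff hF hdual hT hc
    (fun i j m hm => (hmain T hT hKT).1 i j m (hpure i j m hm)) i j
  have h3 := semisimple_iff hF hdual hQ hR' ((hmain R hR' hK).2.2 hP).1 i j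
  unfold BijectiveM BijectiveN
  rw [h1, h2, h3]
  constructor
  · rintro ⟨⟨h4, h5⟩, h6⟩ k hk
    exact ⟨⟨h4 k hk, h5 k hk⟩, h6 k hk⟩
  · intro h4
    exact ⟨⟨fun k hk => (h4 k hk).1.1, fun k hk => (h4 k hk).1.2⟩, fun k hk => (h4 k hk).2⟩

end main

end Pool.Agent.V1168.UN
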