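import Mathlib
import Pool.Agent.V1168.UN.Thms

/-!
# Chow groups and cycle class maps of products with abelian varieties
-/

set_option autoImplicit false
set_option linter.unusedSectionVars false
set_option linter.unusedVariables false

namespace Pool.Agent.V1168.UN

open Polynomial Pool.Agent.Y156.L Pool.Agent.Y1.CT

section defs

variable {Λ : Type} [Field Λ] {A : AbelianData Λ}

/-- The Frobenius endomorphism of `A × U` acts on the groups `H^(2 c)(A × U, c)` of the theory (the
Chow groups) as multiplication by `Q ^ c`. -/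
def IsPureDiag (T : RelData A) (Q : ℕ) : Prop :=
  ∀ (c : ℤ) (m : T.M), T.DegM (2 * c) c m → T.InvM Q (2 * c) c m

/-- The Frobenius endomorphism of `U` satisfies on each group `H^(2 c)(A × U, c)` a nonzero rational
polynomial all of whose complex roots are unrelated to the fields `K i`. -/
def DiagUnrelated {I : Type} (K : I → Type) [∀ i, Field (K i)] (T : RelData A) : Prop :=
  ∀ c : ℤ, ∃ χ : ℚ[X], χ ≠ 0 ∧ (∀ ρ : ℂ, aeval ρ χ = 0 → Unrelated K ρ) ∧
    ∀ m, T.DegM (2 * c) c m → aeval T.frobM χ m = 0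

/-- The cycle class map of `U` in codimension `c` is a bijection onto the Frobenius invariants. -/
def CycleMapBijectiveN {T R : RelData A} (ρ : Regulator T R) (Q : ℕ) (c : ℤ) : Prop :=
  (∀ w : R.N, R.InvN Q (2 * c) c w → ∃ n, T.DegN (2 * c) c n ∧ ρ.regN n = w) ∧
    ∀ n, T.DegN (2 * c) c n → ρ.regN n = 0 → n = 0

/-- The cycle class map of `A × U` in codimension `c` is a bijection onto the Frobenius invariants. -/
def CycleMapBijectiveM {T R : RelData A} (ρ : Regulator T R) (Q : ℕ) (c : ℤ) : Prop :=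
  (∀ w : R.M, R.InvM Q (2 * c) c w → ∃ m, T.DegM (2 * c) c m ∧ ρ.regM m = w) ∧
    ∀ m, T.DegM (2 * c) c m → ρ.regM m = 0 → m = 0

end defs

section

variable {I : Type} (K : I → Type) [∀ i, Field (K i)] (q : ℕ) (f : I → ℤ[X])

/-- `CycleMapTimes K q f`: for every abelian variety `A` as in `IsAbelian`, all `T` (Chow groups) and
`R` (`ℓ`-adic homology or cohomology) relative to any scheme `U`, with the formal properties, and the
cycle class map from `T` to `R`, where the Frobenius endomorphism of `A × U` acts in the usual way on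
the Chow groups and the one of `U` is unrelated to the fields `K i` on the groups of `T` and `R` in
the bidegrees `(2 c, c)`, and all `c`: the cycle class map of `A × U` in codimension `c` is a
bijection onto the Frobenius invariants if and only if those of `U` in the codimensions `c - k`,
`0 ≤ k ≤ dim A`, are. -/
def CycleMapTimes : Prop :=
  ∀ (Λ : Type) [Field Λ] [CharZero Λ] (A : AbelianData Λ) (s : ℕ), IsAbelian A q s f →
    ∀ (T R : RelData A) (ρ : Regulator T R), IsRel (q ^ s) T → IsPureDiag T (q ^ s) →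
      DiagUnrelated K T → IsRel (q ^ s) R → DiagUnrelated K R → IsRegulator ρ → ∀ c : ℤ,
        CycleMapBijectiveM ρ (q ^ s) c ↔
          ∀ k : ℕ, k ≤ A.dim → CycleMapBijectiveN ρ (q ^ s) (c - k)

/-- `CycleMapSemisimpleTimes K q f`: in the situation of `CycleMapTimes` (with Frobenius
endomorphisms which preserve the degrees of `R`), for all `c`: the cycle class map of `A × U` in
codimension `c` is a bijection onto the Frobenius invariants and the eigenvalue `Q ^ c` of Frobenius
on `H^(2 c)` is semisimple, if and only if the same is true for `U` in the codimensions `c - k`,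
`0 ≤ k ≤ dim A`. And without any assumption on Chow groups: the eigenvalue `Q ^ c` of Frobenius is
semisimple on `H^(2 c)(A × U)` if and only if the eigenvalues `Q ^ (c - k)` on `H^(2 (c - k))(U)` are,
`0 ≤ k ≤ dim A`. -/
def CycleMapSemisimpleTimes : Prop :=
  ∀ (Λ : Type) [Field Λ] [CharZero Λ] (A : AbelianData Λ) (s : ℕ), IsAbelian A q s f →
    ∀ R : RelData A, IsRel (q ^ s) R → PreservesDegrees R → DiagUnrelated K R → ∀ c : ℤ,
      (SemisimpleM R (q ^ s) (2 * c) c ↔
        ∀ k : ℕ, k ≤ A.dim → SemisimpleN R (q ^ s) (2 * (c - k)) (c - k)) ∧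
      ∀ (T : RelData A) (ρ : Regulator T R), IsRel (q ^ s) T → IsPureDiag T (q ^ s) →
        DiagUnrelated K T → IsRegulator ρ →
        ((CycleMapBijectiveM ρ (q ^ s) c ∧ SemisimpleM R (q ^ s) (2 * c) c) ↔
          ∀ k : ℕ, k ≤ A.dim → CycleMapBijectiveN ρ (q ^ s) (c - k) ∧
            SemisimpleN R (q ^ s) (2 * (c - k)) (c - k))

end

section proofs

/-- The theory with only the groups in the bidegrees `(2 c, c)`. -/
def diag {Λ : Type} [Field Λ] {A : AbelianData Λ} (T : RelData A) : RelData A :=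
  { T with
    grN := fun i j => if i = 2 * j then T.grN i j else ⊥
    grM := fun i j => if i = 2 * j then T.grM i j else ⊥ }

variable {Λ : Type} [Field Λ] [CharZero Λ] {A : AbelianData Λ} {Q : ℕ} {T : RelData A}

theorem degN_diag (c : ℤ) (n : T.N) : (diag T).DegN (2 * c) c n ↔ T.DegN (2 * c) c n := by
  change n ∈ (if 2 * c = 2 * c then T.grN (2 * c) c else ⊥) ↔ n ∈ T.grN (2 * c) c
  rw [if_pos rfl]

theorem degM_diag (c : ℤ) (m : T.M) : (diag T).DegM (2 * c) c m ↔ T.DegM (2 * c) c m := by
  change m ∈ (if 2 * c = 2 * c then T.grM (2 * c) c else ⊥) ↔ m ∈ T.grM (2 * c) c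
  rw [if_pos rfl]

theorem degM_diag_cases {i j : ℤ} {m : T.M} (h : (diag T).DegM i j m) :
    (i = 2 * j ∧ T.DegM i j m) ∨ m = 0 := by
  change m ∈ (if i = 2 * j then T.grM i j else ⊥) at h
  by_cases hij : i = 2 * j
  · rw [if_pos hij] at h
    exact Or.inl ⟨hij, h⟩
  · rw [if_neg hij] at h
    exact Or.inr ((Submodule.mem_bot _).1 h)

theorem degN_diag_cases {i j : ℤ} {n : T.N} (h : (diag T).DegN i j n) :
    (i = 2 * j ∧ T.DegN i j n) ∨ n = 0 := by
  change n ∈ (if i = 2 * j then T.grN i j else ⊥) at h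
  by_cases hij : i = 2 * j
  · rw [if_pos hij] at h
    exact Or.inl ⟨hij, h⟩
  · rw [if_neg hij] at h
    exact Or.inr ((Submodule.mem_bot _).1 h)

theorem degN_diag_of {i j : ℤ} (hij : i = 2 * j) {n : T.N} (h : T.DegN i j n) :
    (diag T).DegN i j n := by
  subst hij
  exact (degN_diag j n).2 h

theorem degM_diag_of {i j : ℤ} (hij : i = 2 * j) {m : T.M} (h : T.DegM i j m) :
    (diag T).DegM i j m := by
  subst hij
  exact (degM_diag j m).2 h

theorem isRel_diag (hT : IsRel Q T) : IsRel Q (diag T) where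
  graded :=
    { mul_mem := by
        intro c x i j n hx hn
        rcases degN_diag_cases hn with ⟨h1, h2⟩ | h1
        · exact degM_diag_of (by rw [h1]; ring) (hT.graded.mul_mem hx h2)
        · rw [h1]
          change T.times x 0 ∈ _
          rw [map_zero]
          exact Submodule.zero_mem _
      push_mem := by
        intro c d x i j m hcd hx hm
        rcases degM_diag_cases hm with ⟨h1, h2⟩ | h1
        · exact degN_diag_of (by rw [h1]; ring) (hT.graded.push_mem hcd hx h2)
        · rw [h1]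
          change T.pair x 0 ∈ _
          rw [map_zero]
          exact Submodule.zero_mem _
      push_mul := hT.graded.push_mul }
  acts := ⟨hT.acts.app_corr, hT.acts.app_frob⟩
  frobenius :=
    { FM_mem := by
        intro i j m hm
        rcases degM_diag_cases hm with ⟨h1, h2⟩ | h1
        · exact degM_diag_of h1 (hT.frobenius.FM_mem h2)
        · rw [h1]
          change T.frobM 0 ∈ _
          rw [map_zero]
          exact Submodule.zero_mem _
      FM_mul := hT.frobenius.FM_mul
      FN_push := hT.frobenius.FN_push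
      FM_app := hT.frobenius.FM_app }

theorem preservesDegrees_diag (hP : PreservesDegrees T) : PreservesDegrees (diag T) where
  degM := by
    intro i j m hm
    rcases degM_diag_cases hm with ⟨h1, h2⟩ | h1
    · exact degM_diag_of h1 (hP.degM h2)
    · rw [h1]
      change T.act A.frob (T.frobM 0) ∈ _
      rw [map_zero, map_zero]
      exact Submodule.zero_mem _
  degN := by
    intro i j n hn
    rcases degN_diag_cases hn with ⟨h1, h2⟩ | h1
    · exact degN_diag_of h1 (hP.degN h2)
    · rw [h1]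
      change T.frobN 0 ∈ _
      rw [map_zero]
      exact Submodule.zero_mem _

theorem unrelated_diag {I : Type} {K : I → Type} [∀ i, Field (K i)] (h : DiagUnrelated K T) :
    FrobeniusUnrelated K (diag T) := by
  intro i j
  by_cases hij : i = 2 * j
  · subst hij
    obtain ⟨χ, h1, h2, h3⟩ := h j
    exact ⟨χ, h1, h2, fun m hm => h3 m ((degM_diag (T := T) j m).1 hm)⟩
  · refine ⟨1, one_ne_zero, fun ρ hρ => ?_, fun m hm => ?_⟩
    · rw [map_one] at hρ
      exact absurd hρ one_ne_zero
    · rcases degM_diag_cases hm with ⟨h1, -⟩ | h1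
      · exact absurd h1 hij
      · change (aeval T.frobM (1 : ℚ[X])) m = 0
        rw [h1, map_zero]

theorem isPure_diag (h : IsPureDiag T Q) : (diag T).IsPure Q := by
  intro i j m hm
  rcases degM_diag_cases hm with ⟨h1, h2⟩ | h1
  · subst h1
    exact ⟨hm, (h j m h2).2⟩
  · subst h1
    refine ⟨hm, ?_⟩
    change T.act A.frob (T.frobM 0) = (Q : ℚ) ^ j • (0 : T.M)
    rw [map_zero, map_zero, smul_zero]

/-- The cycle class map on the diagonal. -/
def diagReg {T R : RelData A} (ρ : Regulator T R) : Regulator (diag T) (diag R) := ⟨ρ.cN, ρ.cM⟩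

theorem isRegulator_diag {T R : RelData A} {ρ : Regulator T R} (h : IsRegulator ρ) :
    IsRegulator (diagReg ρ) where
  memN := by
    intro i j n hn
    rcases degN_diag_cases hn with ⟨h1, h2⟩ | h1
    · exact degN_diag_of h1 (h.memN h2)
    · rw [h1]
      change ρ.cN 0 ∈ _
      rw [map_zero]
      exact Submodule.zero_mem _
  memM := by
    intro i j m hm
    rcases degM_diag_cases hm with ⟨h1, h2⟩ | h1
    · exact degM_diag_of h1 (h.memM h2)
    · rw [h1]
      change ρ.cM 0 ∈ _
      rw [map_zero]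
      exact Submodule.zero_mem _
  mul := h.mul
  push := h.push

theorem bijectiveN_diag {T R : RelData A} (ρ : Regulator T R) (c : ℤ) :
    BijectiveN (diagReg ρ) Q (2 * c) c ↔ CycleMapBijectiveN ρ Q c := by
  constructor
  · rintro ⟨h1, h2⟩
    refine ⟨fun w hw => ?_, fun n hn h => h2 n ((degN_diag (T := T) c n).2 hn) h⟩
    obtain ⟨n, hn, h3⟩ := h1 w ⟨(degN_diag (T := R) c w).2 hw.1, hw.2⟩
    exact ⟨n, (degN_diag (T := T) c n).1 hn, h3⟩
  · rintro ⟨h1, h2⟩
    refine ⟨fun w hw => ?_, fun n hn h => h2 n ((degN_diag (T := T) c n).1 hn) h⟩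
    obtain ⟨n, hn, h3⟩ := h1 w ⟨(degN_diag (T := R) c w).1 hw.1, hw.2⟩
    exact ⟨n, (degN_diag (T := T) c n).2 hn, h3⟩

theorem bijectiveM_diag {T R : RelData A} (ρ : Regulator T R) (c : ℤ) :
    BijectiveM (diagReg ρ) Q (2 * c) c ↔ CycleMapBijectiveM ρ Q c := by
  constructor
  · rintro ⟨h1, h2⟩
    refine ⟨fun w hw => ?_, fun n hn h => h2 n ((degM_diag (T := T) c n).2 hn) h⟩
    obtain ⟨n, hn, h3⟩ := h1 w ⟨(degM_diag (T := R) c w).2 hw.1, hw.2⟩
    exact ⟨n, (degM_diag (T := T) c n).1 hn, h3⟩
  · rintro ⟨h1, h2⟩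
    refine ⟨fun w hw => ?_, fun n hn h => h2 n ((degM_diag (T := T) c n).1 hn) h⟩
    obtain ⟨n, hn, h3⟩ := h1 w ⟨(degM_diag (T := R) c w).1 hw.1, hw.2⟩
    exact ⟨n, (degM_diag (T := T) c n).2 hn, h3⟩

theorem semisimpleN_diag (c : ℤ) :
    SemisimpleN (diag T) Q (2 * c) c ↔ SemisimpleN T Q (2 * c) c := by
  constructor
  · intro h N n hn h1
    exact h N n ((degN_diag (T := T) c n).2 hn) h1
  · intro h N n hn h1
    exact h N n ((degN_diag (T := T) c n).1 hn) h1

theorem semisimpleM_diag (c : ℤ) :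
    SemisimpleM (diag T) Q (2 * c) c ↔ SemisimpleM T Q (2 * c) c := by
  constructor
  · intro h N m hm h1
    exact h N m ((degM_diag (T := T) c m).2 hm) h1
  · intro h N m hm h1
    exact h N m ((degM_diag (T := T) c m).1 hm) h1

end proofs

section main

variable {I : Type} {K : I → Type} [∀ i, Field (K i)] {q : ℕ} (hq : 1 < q) {f : I → ℤ[X]}
  (hR : NoRel f q (Unrelated K))

include hq hR

theorem cycleMapTimes : CycleMapTimes K q f := by
  intro Λ _ _ A s hA T R ρ hT hpure hKT hR' hK hc c
  obtain ⟨J, hJ, d, D, E', hF, hdual, hQ, hmain⟩ := exists_classes hq hR hA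
  have hT1 := isRel_diag hT
  have hR1 := isRel_diag hR'
  have hc1 := isRegulator_diag hc
  have h1 := tate_iff hF hdual hQ hT1 hR1 hc1 (hmain _ hR1 (unrelated_diag hK)).1 (2 * c) c
  have h2 := beilinson_iff hF hdual hT1 hc1 (fun i j m hm =>
    (hmain _ hT1 (unrelated_diag hKT)).1 i j m (isPure_diag hpure i j m hm)) (2 * c) c
  rw [← bijectiveM_diag]
  unfold BijectiveM
  rw [h1, h2]
  have h3 : ∀ k : ℕ, (2 * c - 2 * k : ℤ) = 2 * (c - k) := fun k => by ring
  constructor
  · rintro ⟨h4, h5⟩ k hk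
    have h6 := h4 k hk
    have h7 := h5 k hk
    rw [h3] at h6 h7
    exact (bijectiveN_diag ρ _).1 ⟨h6, h7⟩
  · intro h4
    refine ⟨fun k hk => ?_, fun k hk => ?_⟩
    · rw [h3]
      exact ((bijectiveN_diag ρ _).2 (h4 k hk)).1
    · rw [h3]
      exact ((bijectiveN_diag ρ _).2 (h4 k hk)).2

theorem cycleMapSemisimpleTimes : CycleMapSemisimpleTimes K q f := by
  intro Λ _ _ A s hA R hR' hP hK c
  have h3 : ∀ k : ℕ, (2 * c - 2 * k : ℤ) = 2 * (c - k) := fun k => by ring
  have hss : SemisimpleM R (q ^ s) (2 * c) c ↔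
      ∀ k : ℕ, k ≤ A.dim → SemisimpleN R (q ^ s) (2 * (c - k)) (c - k) := by
    have h1 := semisimpleHigher hq hR Λ A s hA (diag R) (isRel_diag hR')
      (preservesDegrees_diag hP) (unrelated_diag hK) (2 * c) c
    rw [semisimpleM_diag] at h1
    rw [h1]
    refine forall_congr' fun k => forall_congr' fun hk => ?_
    rw [h3]
    exact semisimpleN_diag _
  refine ⟨hss, fun T ρ hT hpure hKT hc => ?_⟩
  rw [cycleMapTimes hq hR Λ A s hA T R ρ hT hpure hKT hR' hK hc c, hss]
  constructor
  · rintro ⟨h4, h5⟩ k hk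
    exact ⟨h4 k hk, h5 k hk⟩
  · intro h4
    exact ⟨fun k hk => (h4 k hk).1, fun k hk => (h4 k hk).2⟩

end main

end Pool.Agent.V1168.UN
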