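import Mathlib
import Pool.Agent.Y1.CT.CodimDefs

/-!
# Products of abelian varieties and unrelated varieties
-/

set_option autoImplicit false

open CategoryTheory AlgebraicGeometry

universe u v w

namespace Pool.Agent.V1168.UN

open Polynomial Pool.Agent.H914 Pool.Agent.H914.VarClass Pool.Agent.H914.VarClass.Obj
  Pool.Agent.W492.BB Pool.Agent.W484.CK Pool.Agent.Y1.CT

variable {k : Type u} [Field k] {𝒱 : VarClass k} {C : TheoryData.{u, v, 0} 𝒱 ℚ} {F : Type w}
  [Field F] (H : WeilTheoryData.{u, v, w} C F) {A Z : 𝒱.Obj}

/-- `πA` is the Frobenius endomorphism of an abelian variety `A` over the field with `q ^ s`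
elements, isogenous to a product of powers of abelian varieties coming from the field with `q`
elements with characteristic polynomials `f i`; `Z` is any variety over the field with `q ^ s`
elements, such that the eigenvalues of its Frobenius endomorphism `πZ` on the cohomology and their
conjugates are unrelated to the fields `K i`, and such that homologically trivial
self-correspondences of `A × Z` of degree zero are nilpotent. -/
structure IsNilpotentPair [CharZero F] {I : Type} (K : I → Type) [∀ i, Field (K i)] (q s : ℕ)
    (f : I → ℤ[X]) (πA : A ⟶ A) (πZ : Z ⟶ Z) : Prop where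
  standard : IsStandard H
  pos : 0 < s
  abelian : IsAbelian H πA q s f
  unrelated : AreUnrelated H K πZ
  nilpotence : Nilpotence H (A.prod Z)

end Pool.Agent.V1168.UN
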